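import Mathlib

set_option autoImplicit false
open scoped Pointwise

namespace Pool.Agent.P.MP_bb8083_al

variable {G : Type*} [Group G]

section
variable {ι : Type*} (A : ι → Set G)

/-- A cell is good if finitely many left translates of its difference set cover the group. -/
def Good (i : ι) : Prop :=
  ∃ F : Finset G, ∀ g : G, ∃ f ∈ F, f⁻¹ * g ∈ A i * (A i)⁻¹

/-- Sets covered by finitely many left translates of cells with index in `s`. -/
def CovBy (s : Set ι) (Y : Set G) : Prop :=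
  ∃ F : Finset G, ∀ y ∈ Y, ∃ i ∈ s, ∃ f ∈ F, f⁻¹ * y ∈ A i

/-- The ideal of negligible sets. -/
def Negl (Y : Set G) : Prop := CovBy A {i | ¬ Good A i} Y

theorem not_covBy_finset (s : Finset ι) (hs : ∀ i ∈ s, ¬ Good A i) :
    ¬ CovBy A (s : Set ι) Set.univ := by
  classical
  induction s using Finset.induction_on with
  | empty =>
    rintro ⟨F, hF⟩
    obtain ⟨i, hi, -⟩ := hF 1 trivial
    simp at hi
  | insert j s hj ih =>
    rintro ⟨F, hF⟩
    apply ih (fun i hi => hs i (Finset.mem_insert_of_mem hi))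
    have hbad := hs j (Finset.mem_insert_self j s)
    unfold Good at hbad
    push Not at hbad
    obtain ⟨h, hh⟩ := hbad F
    have key : ∀ a ∈ A j, ∃ i ∈ (s : Set ι), ∃ f ∈ F, f⁻¹ * (h * a) ∈ A i := by
      intro a ha
      obtain ⟨i, hi, f, hf, hfa⟩ := hF (h * a) trivial
      rw [Finset.coe_insert, Set.mem_insert_iff] at hi
      rcases hi with rfl | hi
      · exfalso
        apply hh f hf
        have : f⁻¹ * h = (f⁻¹ * (h * a)) * a⁻¹ := by group
        rw [this]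
        exact Set.mul_mem_mul hfa (Set.inv_mem_inv.mpr ha)
      · exact ⟨i, hi, f, hf, hfa⟩
    refine ⟨F ∪ (F ×ˢ F).image (fun p => p.1 * h⁻¹ * p.2), ?_⟩
    intro y _
    obtain ⟨i, hi, f, hf, hfy⟩ := hF y trivial
    rw [Finset.coe_insert, Set.mem_insert_iff] at hi
    rcases hi with rfl | hi
    · obtain ⟨i', hi', f', hf', hfa'⟩ := key _ hfy
      refine ⟨i', hi', f * h⁻¹ * f', ?_, ?_⟩
      · apply Finset.mem_union_right
        exact Finset.mem_image.mpr ⟨(f, f'), Finset.mem_product.mpr ⟨hf, hf'⟩, rfl⟩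
      · have : (f * h⁻¹ * f')⁻¹ * y = f'⁻¹ * (h * (f⁻¹ * y)) := by group
        rw [this]
        exact hfa'
    · exact ⟨i, hi, f, Finset.mem_union_left _ hf, hfy⟩

theorem not_negl_univ [Finite ι] : ¬ Negl A Set.univ := by
  classical
  have := Fintype.ofFinite ι
  have h := not_covBy_finset A (Finset.univ.filter (fun i => ¬ Good A i))
    (fun i hi => (Finset.mem_filter.mp hi).2)
  intro hn
  apply h
  have : ((Finset.univ.filter (fun i => ¬ Good A i) : Finset ι) : Set ι) = {i | ¬ Good A i} := by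
    ext i; simp
  rw [this]
  exact hn

theorem Negl.mono {Y Z : Set G} (h : Negl A Z) (hYZ : Y ⊆ Z) : Negl A Y := by
  obtain ⟨F, hF⟩ := h
  exact ⟨F, fun y hy => hF y (hYZ hy)⟩

theorem Negl.union {Y Z : Set G} (hY : Negl A Y) (hZ : Negl A Z) : Negl A (Y ∪ Z) := by
  classical
  obtain ⟨F, hF⟩ := hY
  obtain ⟨F', hF'⟩ := hZ
  refine ⟨F ∪ F', ?_⟩
  rintro y (hy | hy)
  · obtain ⟨i, hi, f, hf, h⟩ := hF y hy
    exact ⟨i, hi, f, Finset.mem_union_left _ hf, h⟩
  · obtain ⟨i, hi, f, hf, h⟩ := hF' y hy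
    exact ⟨i, hi, f, Finset.mem_union_right _ hf, h⟩

theorem negl_empty : Negl A ∅ := ⟨∅, fun _ hy => absurd hy (Set.notMem_empty _)⟩

theorem Negl.translate {Y : Set G} (hY : Negl A Y) (g : G) : Negl A {y | g * y ∈ Y} := by
  classical
  obtain ⟨F, hF⟩ := hY
  refine ⟨F.image (fun f => g⁻¹ * f), ?_⟩
  intro y hy
  obtain ⟨i, hi, f, hf, h⟩ := hF (g * y) hy
  refine ⟨i, hi, g⁻¹ * f, Finset.mem_image.mpr ⟨f, hf, rfl⟩, ?_⟩
  have : (g⁻¹ * f)⁻¹ * y = f⁻¹ * (g * y) := by group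
  rw [this]
  exact h

theorem negl_cell {i : ι} (hi : ¬ Good A i) : Negl A (A i) :=
  ⟨{1}, fun y hy => ⟨i, hi, 1, Finset.mem_singleton_self _, by simpa using hy⟩⟩

/-- Small sets. -/
def Small (S : Set G) : Prop :=
  ∀ i, Good A i → ∀ x ∈ S, ∀ y ∈ S, ∀ a ∈ A i, ∀ b ∈ A i,
    a * x⁻¹ * y * b⁻¹ ∈ (A i * (A i)⁻¹) ^ 4

theorem Small.translate {S : Set G} (hS : Small A S) (g : G) : Small A {y | g * y ∈ S} := by
  intro i hi x hx y hy a ha b hb
  have := hS i hi (g * x) hx (g * y) hy a ha b hb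
  have e : a * x⁻¹ * y * b⁻¹ = a * (g * x)⁻¹ * (g * y) * b⁻¹ := by group
  rw [e]
  exact this

/-- `Y` is covered, up to a negligible set, by at most `m` small sets. -/
def Cov (Y : Set G) (m : ℕ) : Prop :=
  ∃ T : Finset (Set G), T.card ≤ m ∧ (∀ S ∈ T, Small A S) ∧
    Negl A {y | y ∈ Y ∧ ∀ S ∈ T, y ∉ S}

theorem diff_symm (B : Set G) {x : G} (hx : x ∈ B * B⁻¹) : x⁻¹ ∈ B * B⁻¹ := by
  obtain ⟨a, ha, b, hb, rfl⟩ := hx
  refine ⟨b⁻¹, Set.mem_inv.mp hb, a⁻¹, Set.inv_mem_inv.mpr ha, ?_⟩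
  simp

theorem exists_cov_univ [Finite ι] : ∃ m, Cov A Set.univ m := by
  classical
  have hch : ∀ i : ι, ∃ (F : Finset G) (κ : G → G), (∀ x, κ x ∈ F) ∧
      (Good A i → ∃ c ∈ A i, ∀ x, (κ x)⁻¹ * x * c⁻¹ ∈ A i * (A i)⁻¹) := by
    intro i
    by_cases hi : Good A i
    · obtain ⟨F, hF⟩ := hi
      obtain ⟨f, -, c, hc, -⟩ := hF 1
      have h2 : ∀ x : G, ∃ f ∈ F, f⁻¹ * x * c⁻¹ ∈ A i * (A i)⁻¹ := by
        intro x
        obtain ⟨f, hf, h⟩ := hF (x * c⁻¹)
        exact ⟨f, hf, by rwa [mul_assoc]⟩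
      choose κ hκ hκ' using h2
      exact ⟨F, κ, hκ, fun _ => ⟨c, hc, hκ'⟩⟩
    · exact ⟨{1}, fun _ => 1, fun _ => Finset.mem_singleton_self _, fun h => absurd h hi⟩
  choose F κ hκ hgood using hch
  have := Fintype.ofFinite ι
  let fib : (ι → G) → Set G := fun φ => {x | ∀ i, κ i x = φ i}
  refine ⟨_, (Fintype.piFinset F).image fib, le_rfl, ?_, ?_⟩
  · intro S hS
    obtain ⟨φ, -, rfl⟩ := Finset.mem_image.mp hS
    intro i hi x hx y hy a ha b hb
    obtain ⟨c, hc, hcx⟩ := hgood i hi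
    have h1 := hcx x
    have h2 := hcx y
    rw [hx i] at h1
    rw [hy i] at h2
    have e : a * x⁻¹ * y * b⁻¹ =
        (a * c⁻¹) * ((φ i)⁻¹ * x * c⁻¹)⁻¹ * ((φ i)⁻¹ * y * c⁻¹) * (c * b⁻¹) := by group
    rw [e]
    have e4 : (A i * (A i)⁻¹) ^ 4 =
        (A i * (A i)⁻¹) * (A i * (A i)⁻¹) * (A i * (A i)⁻¹) * (A i * (A i)⁻¹) := by
      rw [pow_succ, pow_succ, pow_succ, pow_one]
    rw [e4]
    exact Set.mul_mem_mul (Set.mul_mem_mul (Set.mul_mem_mul
      (Set.mul_mem_mul ha (Set.inv_mem_inv.mpr hc)) (diff_symm _ h1)) h2)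
      (Set.mul_mem_mul hc (Set.inv_mem_inv.mpr hb))
  · apply (negl_empty A).mono
    rintro y ⟨-, hy⟩
    exfalso
    apply hy (fib (fun i => κ i y))
    · exact Finset.mem_image.mpr ⟨_, Fintype.mem_piFinset.mpr (fun i => hκ i y), rfl⟩
    · intro i
      rfl

theorem Cov.mono {Y Z : Set G} {m : ℕ} (h : Cov A Z m) (hYZ : Y ⊆ Z) : Cov A Y m := by
  obtain ⟨T, h1, h2, h3⟩ := h
  exact ⟨T, h1, h2, h3.mono A (fun y hy => ⟨hYZ hy.1, hy.2⟩)⟩

theorem Cov.union {Y Z : Set G} {m k : ℕ} (hY : Cov A Y m) (hZ : Cov A Z k) :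
    Cov A (Y ∪ Z) (m + k) := by
  classical
  obtain ⟨T, h1, h2, h3⟩ := hY
  obtain ⟨T', h1', h2', h3'⟩ := hZ
  refine ⟨T ∪ T', (Finset.card_union_le _ _).trans (add_le_add h1 h1'), ?_, ?_⟩
  · intro S hS
    rcases Finset.mem_union.mp hS with h | h
    · exact h2 S h
    · exact h2' S h
  · apply (h3.union A h3').mono
    rintro y ⟨hy | hy, hy'⟩
    · exact Or.inl ⟨hy, fun S hS => hy' S (Finset.mem_union_left _ hS)⟩
    · exact Or.inr ⟨hy, fun S hS => hy' S (Finset.mem_union_right _ hS)⟩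

theorem Cov.translate {Y : Set G} {m : ℕ} (hY : Cov A Y m) (g : G) :
    Cov A {y | g * y ∈ Y} m := by
  classical
  obtain ⟨T, h1, h2, h3⟩ := hY
  refine ⟨T.image (fun S => {y | g * y ∈ S}), Finset.card_image_le.trans h1, ?_, ?_⟩
  · intro S hS
    obtain ⟨S', hS', rfl⟩ := Finset.mem_image.mp hS
    exact (h2 S' hS').translate A g
  · apply (h3.translate A g).mono
    rintro y ⟨hy, hy'⟩
    refine ⟨hy, fun S hS hyS => ?_⟩
    exact hy' _ (Finset.mem_image.mpr ⟨S, hS, rfl⟩) hyS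

theorem cov_zero_iff {Y : Set G} : Cov A Y 0 ↔ Negl A Y := by
  constructor
  · rintro ⟨T, h1, -, h3⟩
    have : T = ∅ := Finset.card_eq_zero.mp (Nat.le_zero.mp h1)
    subst this
    exact h3.mono A (fun y hy => ⟨hy, by simp⟩)
  · intro h
    exact ⟨∅, le_rfl, by simp, h.mono A (fun y hy => hy.1)⟩

/-- The covering number. -/
noncomputable def nu (Y : Set G) : ℕ := sInf {m | Cov A Y m}

theorem cov_nu [Finite ι] (Y : Set G) : Cov A Y (nu A Y) := by
  obtain ⟨m, hm⟩ := exists_cov_univ A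
  exact Nat.sInf_mem (s := {m | Cov A Y m}) ⟨m, hm.mono A (Set.subset_univ _)⟩

theorem nu_le {Y : Set G} {m : ℕ} (h : Cov A Y m) : nu A Y ≤ m :=
  Nat.sInf_le (s := {m | Cov A Y m}) h

theorem cov_biUnion [Finite ι] (s : Finset ι) :
    Cov A (⋃ i ∈ s, A i) (∑ i ∈ s, nu A (A i)) := by
  classical
  induction s using Finset.induction_on with
  | empty => simpa using (cov_zero_iff A).mpr (negl_empty A)
  | insert j s hj ih =>
    rw [Finset.sum_insert hj, Finset.set_biUnion_insert]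
    exact (cov_nu A _).union A ih

theorem packing [Finite ι] (i : ι) (hi : Good A i) (k : ℕ) (g : Fin k → G)
    (hg : ∀ s t, s ≠ t → (g s)⁻¹ * g t ∉ (A i * (A i)⁻¹) ^ 4) :
    k * nu A (A i) ≤ nu A Set.univ := by
  classical
  obtain ⟨T, h1, h2, h3⟩ := cov_nu A (Set.univ : Set G)
  let U : Fin k → Finset (Set G) := fun s => T.filter (fun S => ∃ x ∈ S, (g s)⁻¹ * x ∈ A i)
  have hU : ∀ s, nu A (A i) ≤ (U s).card := by
    intro s
    have hc : Cov A {x | (g s)⁻¹ * x ∈ A i} (U s).card := by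
      refine ⟨U s, le_rfl, fun S hS => h2 S (Finset.mem_filter.mp hS).1, h3.mono A ?_⟩
      rintro y ⟨hy, hy'⟩
      refine ⟨trivial, fun S hS hyS => ?_⟩
      exact hy' S (Finset.mem_filter.mpr ⟨hS, y, hyS, hy⟩) hyS
    apply nu_le
    apply (hc.translate A (g s)).mono
    intro y hy
    simpa using hy
  have hdisj : ((Finset.univ : Finset (Fin k)) : Set (Fin k)).PairwiseDisjoint U := by
    intro s _ t _ hst
    rw [Function.onFun, Finset.disjoint_left]
    intro S hS hS'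
    obtain ⟨hST, x, hx, hxa⟩ := Finset.mem_filter.mp hS
    obtain ⟨-, y, hy, hya⟩ := Finset.mem_filter.mp hS'
    apply hg s t hst
    have := h2 S hST i hi x hx y hy _ hxa _ hya
    have e : (g s)⁻¹ * g t = (g s)⁻¹ * x * x⁻¹ * y * ((g t)⁻¹ * y)⁻¹ := by group
    rw [e]
    exact this
  calc k * nu A (A i) = ∑ _s : Fin k, nu A (A i) := by simp
    _ ≤ ∑ s : Fin k, (U s).card := Finset.sum_le_sum (fun s _ => hU s)
    _ = (Finset.univ.biUnion U).card := (Finset.card_biUnion hdisj).symm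
    _ ≤ T.card := Finset.card_le_card (by
        intro S hS
        obtain ⟨s, -, hs⟩ := Finset.mem_biUnion.mp hS
        exact (Finset.mem_filter.mp hs).1)
    _ ≤ nu A Set.univ := h1

end

/-- Key lemma: for some cell, among any `n + 1` elements two differ by an element of the
fourth power of the difference set. -/
theorem key {n : ℕ} (A : Fin n → Set G) (hA : (⋃ i, A i) = Set.univ) :
    ∃ i, (A i).Nonempty ∧ ∀ g : Fin (n + 1) → G, ∃ s t, s ≠ t ∧
      (g s)⁻¹ * g t ∈ (A i * (A i)⁻¹) ^ 4 := by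
  classical
  have hm : 0 < nu A Set.univ := by
    rcases Nat.eq_zero_or_pos (nu A Set.univ) with h | h
    · exfalso
      apply not_negl_univ A
      rw [← cov_zero_iff, ← h]
      exact cov_nu A _
    · exact h
  have hsum : nu A Set.univ ≤ ∑ i, nu A (A i) := by
    apply nu_le
    have := cov_biUnion A Finset.univ
    simpa [hA] using this
  have hne : (Finset.univ : Finset (Fin n)).Nonempty := by
    rcases Finset.eq_empty_or_nonempty (Finset.univ : Finset (Fin n)) with h | h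
    · rw [h] at hsum
      simp at hsum
      omega
    · exact h
  obtain ⟨i, -, hi⟩ := Finset.exists_max_image Finset.univ (fun i => nu A (A i)) hne
  have hle : nu A Set.univ ≤ n * nu A (A i) := by
    calc nu A Set.univ ≤ ∑ j, nu A (A j) := hsum
      _ ≤ ∑ _j : Fin n, nu A (A i) := Finset.sum_le_sum (fun j hj => hi j hj)
      _ = n * nu A (A i) := by simp
  have hpos : 0 < nu A (A i) := by
    rcases Nat.eq_zero_or_pos (nu A (A i)) with h | h
    · rw [h] at hle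
      omega
    · exact h
  have hgood : Good A i := by
    by_contra hbad
    have := nu_le A ((cov_zero_iff A).mpr (negl_cell A hbad))
    omega
  refine ⟨i, ?_, ?_⟩
  · obtain ⟨F, hF⟩ := hgood
    obtain ⟨f, -, c, hc, -⟩ := hF 1
    exact ⟨c, hc⟩
  · intro g
    by_contra hg
    push Not at hg
    have := packing A i hgood (n + 1) g hg
    nlinarith

theorem pow_symm {B : Set G} (hB : ∀ x ∈ B, x⁻¹ ∈ B) (k : ℕ) {x : G} (hx : x ∈ B ^ k) :
    x⁻¹ ∈ B ^ k := by
  have hBB : B⁻¹ = B := by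
    ext y
    rw [Set.mem_inv]
    constructor
    · intro h
      simpa using hB _ h
    · exact hB y
  have : (B ^ k)⁻¹ = B ^ k := by rw [← inv_pow, hBB]
  rw [← this]
  exact Set.inv_mem_inv.mpr hx

/-- From the packing property to a subgroup of small index. -/
theorem subgroup_of_packing {B : Set G} (h1 : (1 : G) ∈ B) (hB : ∀ x ∈ B, x⁻¹ ∈ B)
    (n k N : ℕ) (hN : (k + 1) * n ≤ N + 1)
    (hg : ∀ g : Fin (n + 1) → G, ∃ s t, s ≠ t ∧ (g s)⁻¹ * g t ∈ B ^ k) :
    ∃ H : Subgroup G, B ^ N = (H : Set G) ∧ H.index ≠ 0 ∧ H.index ≤ n := by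
  classical
  have hn : 0 < n := by
    rcases Nat.eq_zero_or_pos n with h | h
    · subst h
      obtain ⟨s, t, hst, -⟩ := hg (fun _ => 1)
      exact absurd (Subsingleton.elim (α := Fin 1) s t) hst
    · exact h
  have hmono : ∀ {a b : ℕ}, a ≤ b → B ^ a ⊆ B ^ b := fun hab => Set.pow_subset_pow_right h1 hab
  obtain ⟨M, hM⟩ : ∃ M, (k + 1) * n = M + 1 := ⟨(k + 1) * n - 1, by
    have : 0 < (k + 1) * n := Nat.mul_pos (Nat.succ_pos k) hn
    omega⟩
  have hstab : B ^ (M + 1) ⊆ B ^ M := by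
    intro x hx
    have hsplit : ∀ s : Fin (n + 1), ∃ y ∈ B ^ ((k + 1) * s.val),
        y⁻¹ * x ∈ B ^ ((k + 1) * (n - s.val)) := by
      intro s
      have hs : s.val ≤ n := Nat.lt_succ_iff.mp s.isLt
      have e : M + 1 = (k + 1) * s.val + (k + 1) * (n - s.val) := by
        rw [← hM, ← Nat.mul_add, Nat.add_sub_cancel' hs]
      rw [e, pow_add] at hx
      obtain ⟨y, hy, z, hz, rfl⟩ := hx
      exact ⟨y, hy, by simpa using hz⟩
    choose g hg1 hg2 using hsplit
    have main : ∀ s t : Fin (n + 1), s.val < t.val → (g s)⁻¹ * g t ∈ B ^ k → x ∈ B ^ M := by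
      intro s t hst h
      have ht : t.val ≤ n := Nat.lt_succ_iff.mp t.isLt
      have e : x = g s * ((g s)⁻¹ * g t) * ((g t)⁻¹ * x) := by group
      have hmem : x ∈ B ^ ((k + 1) * s.val + k + (k + 1) * (n - t.val)) := by
        rw [pow_add, pow_add, e]
        exact Set.mul_mem_mul (Set.mul_mem_mul (hg1 s) h) (by simpa [← e] using hg2 t)
      refine hmono ?_ hmem
      obtain ⟨d, hd⟩ : ∃ d, n = t.val + d := ⟨n - t.val, by omega⟩
      have e2 : n - t.val = d := by omega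
      rw [e2]
      have : (k + 1) * n = (k + 1) * t.val + (k + 1) * d := by rw [← Nat.mul_add, ← hd]
      have h3 : (k + 1) * (s.val + 1) ≤ (k + 1) * t.val := Nat.mul_le_mul_left _ hst
      have h4 : (k + 1) * (s.val + 1) = (k + 1) * s.val + k + 1 := by ring
      omega
    obtain ⟨s, t, hst, h⟩ := hg g
    rcases lt_or_gt_of_ne (fun h' : s.val = t.val => hst (Fin.ext h')) with hlt | hlt
    · exact main s t hlt h
    · apply main t s hlt
      have := pow_symm hB k h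
      simpa using this
  have hall : ∀ j, B ^ (M + j) ⊆ B ^ M := by
    intro j
    induction j with
    | zero => exact le_rfl
    | succ j ih =>
      rw [← Nat.add_assoc, pow_succ]
      calc B ^ (M + j) * B ⊆ B ^ M * B := Set.mul_subset_mul_right ih
        _ = B ^ (M + 1) := (pow_succ _ _).symm
        _ ⊆ B ^ M := hstab
  have hMN : M ≤ N := by omega
  have hall' : ∀ j, B ^ j ⊆ B ^ N := by
    intro j
    calc B ^ j ⊆ B ^ (M + j) := hmono (by omega)
      _ ⊆ B ^ M := hall j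
      _ ⊆ B ^ N := hmono hMN
  let H : Subgroup G :=
    { carrier := B ^ N
      mul_mem' := fun {a b} ha hb => by
        apply hall' (N + N)
        rw [pow_add]
        exact Set.mul_mem_mul ha hb
      one_mem' := Set.one_mem_pow h1
      inv_mem' := fun {a} ha => pow_symm hB N ha }
  have hcard : ¬ ∃ e : Fin (n + 1) → G ⧸ H, Function.Injective e := by
    rintro ⟨e, he⟩
    obtain ⟨s, t, hst, h⟩ := hg (fun s => (e s).out)
    apply hst
    apply he
    rw [← QuotientGroup.out_eq' (e s), ← QuotientGroup.out_eq' (e t), QuotientGroup.eq]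
    exact hall' k h
  have hfin : Finite (G ⧸ H) := by
    by_contra hinf
    rw [not_finite_iff_infinite] at hinf
    exact hcard ⟨fun s => Infinite.natEmbedding (G ⧸ H) s.val,
      fun s t h => Fin.ext ((Infinite.natEmbedding (G ⧸ H)).injective h)⟩
  refine ⟨H, rfl, Subgroup.index_ne_zero_of_finite, ?_⟩
  by_contra hlt
  apply hcard
  have := Fintype.ofFinite (G ⧸ H)
  have hle : Fintype.card (Fin (n + 1)) ≤ Fintype.card (G ⧸ H) := by
    rw [Fintype.card_fin, ← Nat.card_eq_fintype_card]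
    have : H.index = Nat.card (G ⧸ H) := rfl
    omega
  obtain ⟨e⟩ := Function.Embedding.nonempty_of_card_le hle
  exact ⟨e, e.injective⟩

theorem one_mem_diff {B : Set G} (hB : B.Nonempty) : (1 : G) ∈ B * B⁻¹ := by
  obtain ⟨c, hc⟩ := hB
  exact ⟨c, hc, c⁻¹, Set.inv_mem_inv.mpr hc, by simp⟩

/-- The linear bound: the exponent `5 n - 1` already works. -/
theorem linear {n : ℕ} (A : Fin n → Set G) (hA : (⋃ i, A i) = Set.univ) (N : ℕ)
    (hN : 5 * n ≤ N + 1) :
    ∃ i : Fin n, ∃ H : Subgroup G,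
      ((A i * (A i)⁻¹) ^ N : Set G) = (H : Set G) ∧ H.index ≠ 0 ∧ H.index ≤ n := by
  obtain ⟨i, hi, hg⟩ := key A hA
  exact ⟨i, subgroup_of_packing (one_mem_diff hi) (fun x hx => diff_symm _ hx) n 4 N hN hg⟩

theorem case_one (A : Fin 1 → Set G) (hA : (⋃ i, A i) = Set.univ) :
    ∃ i : Fin 1, ∃ H : Subgroup G,
      ((A i * (A i)⁻¹) ^ 1 : Set G) = (H : Set G) ∧ H.index ≠ 0 ∧ H.index ≤ 1 := by
  have h0 : ∀ x, x ∈ A 0 := by
    intro x
    have : x ∈ ⋃ i, A i := by rw [hA]; trivial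
    obtain ⟨i, hi⟩ := Set.mem_iUnion.mp this
    rwa [Subsingleton.elim i 0] at hi
  refine ⟨0, subgroup_of_packing (one_mem_diff ⟨1, h0 1⟩) (fun x hx => diff_symm _ hx)
    1 1 1 (by norm_num) ?_⟩
  intro g
  refine ⟨0, 1, by decide, ?_⟩
  rw [pow_one]
  exact Set.mul_mem_mul (h0 _) (Set.mem_inv.mpr (h0 _))

theorem case_two (A : Fin 2 → Set G) (hA : (⋃ i, A i) = Set.univ) :
    ∃ i : Fin 2, ∃ H : Subgroup G,
      ((A i * (A i)⁻¹) ^ 4 : Set G) = (H : Set G) ∧ H.index ≠ 0 ∧ H.index ≤ 2 := by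
  classical
  have h0 : ∀ x, x ∈ A 0 ∨ x ∈ A 1 := by
    intro x
    have : x ∈ ⋃ i, A i := by rw [hA]; trivial
    obtain ⟨i, hi⟩ := Set.mem_iUnion.mp this
    fin_cases i
    · exact Or.inl hi
    · exact Or.inr hi
  by_cases hc : ∃ h : G, ∀ a ∈ A 0, a * h ∉ A 0
  · obtain ⟨h, hh⟩ := hc
    have h1 : ∀ x, x ∈ A 1 ∨ x * h ∈ A 1 := by
      intro x
      rcases h0 x with hx | hx
      · rcases h0 (x * h) with hx' | hx'
        · exact absurd hx' (hh x hx)
        · exact Or.inr hx'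
      · exact Or.inl hx
    have hne : (A 1).Nonempty := by
      rcases h1 1 with h | h
      · exact ⟨_, h⟩
      · exact ⟨_, h⟩
    refine ⟨1, subgroup_of_packing (one_mem_diff hne) (fun x hx => diff_symm _ hx)
      2 1 4 (by norm_num) ?_⟩
    intro g
    have hl : ∀ s t, (g s)⁻¹ ∈ A 1 → (g t)⁻¹ ∈ A 1 → (g s)⁻¹ * g t ∈ (A 1 * (A 1)⁻¹) ^ 1 := by
      intro s t hs ht
      rw [pow_one]
      exact Set.mul_mem_mul hs (Set.mem_inv.mpr ht)
    have hr : ∀ s t, (g s)⁻¹ * h ∈ A 1 → (g t)⁻¹ * h ∈ A 1 →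
        (g s)⁻¹ * g t ∈ (A 1 * (A 1)⁻¹) ^ 1 := by
      intro s t hs ht
      rw [pow_one]
      have e : (g s)⁻¹ * g t = ((g s)⁻¹ * h) * ((g t)⁻¹ * h)⁻¹ := by group
      rw [e]
      exact Set.mul_mem_mul hs (Set.inv_mem_inv.mpr ht)
    rcases h1 (g 0)⁻¹ with a | a <;> rcases h1 (g 1)⁻¹ with b | b <;>
      rcases h1 (g 2)⁻¹ with c | c
    · exact ⟨0, 1, by decide, hl _ _ a b⟩
    · exact ⟨0, 1, by decide, hl _ _ a b⟩
    · exact ⟨0, 2, by decide, hl _ _ a c⟩
    · exact ⟨1, 2, by decide, hr _ _ b c⟩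
    · exact ⟨1, 2, by decide, hl _ _ b c⟩
    · exact ⟨0, 2, by decide, hr _ _ a c⟩
    · exact ⟨0, 1, by decide, hr _ _ a b⟩
    · exact ⟨0, 1, by decide, hr _ _ a b⟩
  · push Not at hc
    obtain ⟨c, hc0, -⟩ := hc 1
    have h2 : ∀ x : G, x ∈ (A 0 * (A 0)⁻¹) ^ 2 := by
      intro x
      obtain ⟨a, ha, ha'⟩ := hc (c⁻¹ * x * c)
      have e : x = (c * a⁻¹) * ((a * (c⁻¹ * x * c)) * c⁻¹) := by group
      rw [e, pow_two]
      exact Set.mul_mem_mul (Set.mul_mem_mul hc0 (Set.inv_mem_inv.mpr ha))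
        (Set.mul_mem_mul ha' (Set.inv_mem_inv.mpr hc0))
    refine ⟨0, ⊤, ?_, by simp, by simp⟩
    rw [Subgroup.coe_top]
    apply Set.eq_univ_of_forall
    intro x
    exact Set.pow_subset_pow_right (one_mem_diff ⟨c, hc0⟩) (by norm_num) (h2 x)

theorem five_mul_le (n : ℕ) (hn : 3 ≤ n) : 5 * n ≤ 4 ^ (n - 1) + 1 := by
  induction n, hn using Nat.le_induction with
  | base => norm_num
  | succ n hn ih =>
    have e : n + 1 - 1 = (n - 1) + 1 := by omega
    rw [e, pow_succ]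
    omega

theorem main (n : ℕ) (A : Fin n → Set G) (hA : (⋃ i, A i) = Set.univ) :
    ∃ i : Fin n, ∃ H : Subgroup G,
      ((A i * (A i)⁻¹) ^ (4 ^ (n - 1)) : Set G) = (H : Set G) ∧ H.index ≠ 0 ∧ H.index ≤ n := by
  rcases Nat.lt_or_ge n 3 with h | h
  · interval_cases n
    · exact linear A hA _ (by norm_num)
    · exact case_one A hA
    · exact case_two A hA
  · exact linear A hA _ (five_mul_le n h)

end Pool.Agent.P.MP_bb8083_al
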